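import Pool.Agent.Helper13.Res.LA6
import Pool.Agent.Helper28.Res.A0

/-!
# Project RES: the caps (LA6') in the language of route A, and the bounds for `G'_p`
-/

namespace Helper13.Res

open Finset Res12

set_option linter.unusedSectionVars false

section
variable {V : Type} [Fintype V] [DecidableEq V]
variable {F : Finset (Finset V)} {s : ℕ}

/-- as `out_label_E_le`, with any outside point `w` in place of `x` -/
theorem out_label_E_le' (h : Hyp F s) {P : Finset (Finset V)} (hP : P ⊆ F) (hm : IsMatching P)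
    (hc : P.card = s) {x y w p : V} (hx : x ∉ VS P) (hy : y ∉ VS P) (hp : p ∈ N F x y)
    (hw : w ∉ VS P) : ((N F w p \ VS P) \ {x, y}).card ≤ s := by
  obtain ⟨Q, C, D, hQ, hmQ, hcQ, haQ, hbQ, haC, hbD, hC, hD, hCs, hDs, -, -, -, -⟩ :=
    struct h hP hm hc w p
  have huD := sw_uses h hP hQ hm hmQ hc hcQ hx hy hp hD hbD hbQ
  have hsub := label_subset h hP hQ hm hmQ hc hcQ hD (Or.inr hw) (Or.inl hbD) haQ hbQ
  have h2 : ((D \ VS (P.filter (fun e => e ⊆ D))) \ {x, y}).card ≤ s := by
    rcases huD with hu | hu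
    · exact card_sdiff_pair_le hDs hu (Or.inl rfl)
    · exact card_sdiff_pair_le hDs hu (Or.inr rfl)
  exact (card_le_card (sdiff_subset_sdiff hsub (Subset.refl _))).trans h2

/-- a small set of outside points which meets every edge with trace `{p}` (general `p`) -/
theorem exists_cover (h : Hyp F s) {P : Finset (Finset V)} (hP : P ⊆ F) (hm : IsMatching P)
    (hc : P.card = s) (p : V) :
    ∃ T : Finset V, Disjoint T (VS P) ∧ T.card ≤ s + 1 ∧
      (∀ x y : V, x ∉ VS P → y ∉ VS P → p ∈ N F x y → x ∈ T ∨ y ∈ T) ∧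
      ∀ e ∈ F, e ∩ VS P ⊆ {p} → (e ∩ T).Nonempty := by
  classical
  obtain ⟨Q, C, D, hQ, hmQ, hcQ, haQ, hbQ, haC, hbD, hC, hD, hCs, hDs, -, -, -, -⟩ :=
    struct h hP hm hc p p
  refine ⟨(C \ VS (P.filter (fun e => e ⊆ C))) \ VS P, sdiff_disjoint,
    (card_le_card sdiff_subset).trans hCs, ?_, ?_⟩
  · intro x y hx hy hp
    rcases sw_uses h hP hQ hm hmQ hc hcQ hx hy hp hC haC haQ with hu | hu
    · exact Or.inl (mem_sdiff.2 ⟨hu, hx⟩)
    · exact Or.inr (mem_sdiff.2 ⟨hu, hy⟩)
  · intro e he hep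
    have h1 := h.meets (sw_subset hP hQ)
      (sw_matching hC subset_union_left subset_union_right hm hmQ)
      (sw_card h hP hQ hm hmQ hc hcQ hC) he
    rw [Finset.not_disjoint_iff] at h1
    obtain ⟨v, hve, hvs⟩ := h1
    have hvp : v ≠ p := by
      rintro rfl
      exact sw_avoid hC (Or.inl haC) haQ hvs
    have hvP : v ∉ VS P := by
      intro hv
      exact hvp (mem_singleton.1 (hep (mem_inter.2 ⟨hve, hv⟩)))
    exact ⟨v, mem_inter.2 ⟨hve, mem_sdiff.2 ⟨sw_new hvs hvP, hvP⟩⟩⟩

end

end Helper13.Res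

namespace RouteA

open Finset Res12 Helper13.Res

set_option linter.unusedSectionVars false

variable {V : Type} [Fintype V] [DecidableEq V]
variable {F P : Finset (Finset V)} {s j : ℕ} {x y : V}

theorem lb_eq (F P : Finset (Finset V)) (x y a b : V) :
    lb F P x y a b = (N F a b \ VS P) \ {x, y} := by
  unfold lb
  ext v
  simp only [mem_sdiff, mem_union]
  tauto

theorem lb_comm (F P : Finset (Finset V)) (x y a b : V) : lb F P x y a b = lb F P x y b a := by
  unfold lb
  rw [N_comm]

theorem dW_comm (F P : Finset (Finset V)) (a b : V) : dW F P a b = dW F P b a := by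
  unfold dW
  rw [N_comm]

theorem lam_comm (F P : Finset (Finset V)) (a b : V) : lam F P a b = lam F P b a := by
  unfold lam
  rw [dW_comm]

theorem lb_le_dW (F P : Finset (Finset V)) (x y a b : V) :
    (lb F P x y a b).card ≤ dW F P a b := by
  rw [lb_eq]
  exact card_le_card sdiff_subset

/-- general cap -/
theorem SetUp.dW_le (h : SetUp F s j P x y) (a b : V) : dW F P a b ≤ s + 2 :=
  h.hyp.switch h.sub h.mat h.card a b

theorem SetUp.lam_le (h : SetUp F s j P x y) (a b : V) : lam F P a b ≤ s := by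
  have := h.dW_le a b
  unfold lam
  omega

theorem SetUp.dW_own_le (h : SetUp F s j P x y) {e : Finset V} (he : e ∈ P) {a b : V}
    (ha : a ∈ e) (hb : b ∈ e) : dW F P a b ≤ s + 1 :=
  own_label_le h.hyp h.sub h.mat h.card he ha hb

theorem SetUp.lam_own_le (h : SetUp F s j P x y) {e : Finset V} (he : e ∈ P) {a b : V}
    (ha : a ∈ e) (hb : b ∈ e) : lam F P a b ≤ (s : ℤ) - 1 := by
  have := h.dW_own_le he ha hb
  unfold lam
  omega

/-- a pair with an outside point has at most `s + 1` outside neighbours -/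
theorem SetUp.dW_out_le (h : SetUp F s j P x y) {w : V} (hw : w ∉ VS P) (p : V) :
    dW F P w p ≤ s + 1 :=
  out_label_le h.hyp h.sub h.mat h.card hw

theorem SetUp.lb_E_le (h : SetUp F s j P x y) {p : V} (hp : p ∈ N F x y) (q : V) :
    (lb F P x y p q).card ≤ s + 1 := by
  rw [lb_eq]
  exact label_E_le h.hyp h.sub h.mat h.card h.avx h.avy hp

theorem SetUp.lb_EE_le (h : SetUp F s j P x y) {p q : V} (hp : p ∈ N F x y)
    (hq : q ∈ N F x y) : (lb F P x y p q).card ≤ s := by
  rw [lb_eq]
  exact label_EE_le h.hyp h.sub h.mat h.card h.ne h.avx h.avy hp hq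

theorem SetUp.lb_own_E_le (h : SetUp F s j P x y) {e : Finset V} (he : e ∈ P) {p q : V}
    (hpe : p ∈ e) (hqe : q ∈ e) (hp : p ∈ N F x y) : (lb F P x y p q).card ≤ s := by
  rw [lb_eq]
  exact own_label_E_le h.hyp h.sub h.mat h.card he h.avx h.avy hpe hqe hp

/-- `N'_w(p)` for any outside point `w` (for instance `w = x` or `w = y`): at most `s + 1` -/
theorem SetUp.lb_out_le (h : SetUp F s j P x y) {w : V} (hw : w ∉ VS P) (p : V) :
    (lb F P x y w p).card ≤ s + 1 :=
  (lb_le_dW F P x y w p).trans (h.dW_out_le hw p)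

/-- `N'_w(p)` with `p ∈ E`: at most `s` -/
theorem SetUp.lb_out_E_le (h : SetUp F s j P x y) {w p : V} (hw : w ∉ VS P)
    (hp : p ∈ N F x y) : (lb F P x y w p).card ≤ s := by
  rw [lb_eq]
  exact out_label_E_le' h.hyp h.sub h.mat h.card h.avx h.avy hp hw

/-- a vertex cover of `G'_p` with at most `s + 1` points of `W'`, at most `s` if `p ∈ E` -/
theorem SetUp.Gp_cover (h : SetUp F s j P x y) (p : V) :
    ∃ T : Finset V, Disjoint T (VS P ∪ {x, y}) ∧ T.card ≤ s + 1 ∧
      (p ∈ N F x y → T.card ≤ s) ∧ ∀ e ∈ Gp F P x y p, (e ∩ T).Nonempty := by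
  classical
  obtain ⟨T, hd, hT, hxy, hcov⟩ := exists_cover h.hyp h.sub h.mat h.card p
  refine ⟨T \ {x, y}, ?_, (card_le_card sdiff_subset).trans hT, ?_, ?_⟩
  · rw [Finset.disjoint_union_right]
    exact ⟨hd.mono_left sdiff_subset, sdiff_disjoint⟩
  · intro hp
    rcases hxy x y h.avx h.avy hp with hu | hu
    · exact card_sdiff_pair_le hT hu (Or.inl rfl)
    · exact card_sdiff_pair_le hT hu (Or.inr rfl)
  · intro e he
    unfold Gp at he
    rw [mem_filter] at he
    obtain ⟨heF, htr, hxe, hye⟩ := he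
    obtain ⟨v, hv⟩ := hcov e heF htr.le
    rw [mem_inter] at hv
    refine ⟨v, mem_inter.2 ⟨hv.1, mem_sdiff.2 ⟨hv.2, ?_⟩⟩⟩
    rw [mem_insert, mem_singleton, not_or]
    constructor
    · rintro rfl; exact hxe hv.1
    · rintro rfl; exact hye hv.1

/-- the edges of `G'_p` through an outside point `w` -/
theorem SetUp.Gp_deg (h : SetUp F s j P x y) {w : V} (hw : w ∉ VS P) (p : V) :
    ((Gp F P x y p).filter (fun e => w ∈ e)).card ≤ (lb F P x y w p).card := by
  classical
  have hsub : (Gp F P x y p).filter (fun e => w ∈ e) ⊆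
      (lb F P x y w p).image (fun z => ({w, p, z} : Finset V)) := by
    intro e he
    rw [mem_filter] at he
    obtain ⟨heG, hwe⟩ := he
    unfold Gp at heG
    rw [mem_filter] at heG
    obtain ⟨heF, htr, hxe, hye⟩ := heG
    have hp : p ∈ e ∩ VS P := by rw [htr]; exact mem_singleton_self p
    rw [mem_inter] at hp
    have hwp : w ≠ p := by rintro rfl; exact hw hp.2
    have h3 := h.three e heF
    obtain ⟨z, hz⟩ : ∃ z, z ∈ (e.erase w).erase p := by
      rw [← Finset.Nonempty, ← Finset.card_pos, card_erase_of_mem (mem_erase.2 ⟨hwp.symm, hp.1⟩),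
        card_erase_of_mem hwe]
      omega
    rw [mem_erase, mem_erase] at hz
    have heq : ({w, p, z} : Finset V) = e := by
      apply Finset.eq_of_subset_of_card_le
      · intro v hv
        simp only [mem_insert, mem_singleton] at hv
        rcases hv with rfl | rfl | rfl
        · exact hwe
        · exact hp.1
        · exact hz.2.2
      · rw [h3]
        rw [card_insert_of_notMem, card_insert_of_notMem, card_singleton]
        · rw [mem_singleton]; exact fun hh => hz.1 hh.symm
        · rw [mem_insert, mem_singleton, not_or]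
          exact ⟨hwp, fun hh => hz.2.1 hh.symm⟩
    rw [mem_image]
    refine ⟨z, ?_, heq⟩
    unfold lb
    rw [mem_sdiff, mem_N, heq, mem_union, mem_insert, mem_singleton, not_or, not_or]
    refine ⟨heF, ?_, ?_, ?_⟩
    · intro hzP
      have h5 : z ∈ e ∩ VS P := mem_inter.2 ⟨hz.2.2, hzP⟩
      rw [htr, mem_singleton] at h5
      exact hz.1 h5
    · rintro rfl; exact hxe hz.2.2
    · rintro rfl; exact hye hz.2.2
  exact (card_le_card hsub).trans card_image_le

/-- `G'_p` with a vertex cover `T` of outside points: at most `|T| (s + 1)` edges -/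
theorem SetUp.Gp_le_cover (h : SetUp F s j P x y) {p : V} {T : Finset V}
    (hT : Disjoint T (VS P)) (hcov : ∀ e ∈ Gp F P x y p, (e ∩ T).Nonempty) :
    (Gp F P x y p).card ≤ T.card * (s + 1) ∧
      (p ∈ N F x y → (Gp F P x y p).card ≤ T.card * s) := by
  classical
  have hsub : Gp F P x y p ⊆ T.biUnion (fun w => (Gp F P x y p).filter (fun e => w ∈ e)) := by
    intro e he
    obtain ⟨v, hv⟩ := hcov e he
    rw [mem_inter] at hv
    exact mem_biUnion.2 ⟨v, hv.2, mem_filter.2 ⟨he, hv.1⟩⟩
  have hle : ∀ t : ℕ, (∀ w ∈ T, (lb F P x y w p).card ≤ t) →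
      (Gp F P x y p).card ≤ T.card * t := by
    intro t ht
    refine (card_le_card hsub).trans (card_biUnion_le_card_mul _ _ _ ?_)
    intro w hw
    exact (h.Gp_deg (Finset.disjoint_left.1 hT hw) p).trans (ht w hw)
  constructor
  · exact hle _ (fun w hw => h.lb_out_le (Finset.disjoint_left.1 hT hw) p)
  · intro hp
    exact hle _ (fun w hw => h.lb_out_E_le (Finset.disjoint_left.1 hT hw) hp)

/-- **`|G'_p| ≤ (s + 1)^2`** -/
theorem SetUp.Gp_le (h : SetUp F s j P x y) (p : V) :
    (Gp F P x y p).card ≤ (s + 1) * (s + 1) := by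
  obtain ⟨T, hd, hT, -, hcov⟩ := h.Gp_cover p
  have hd' : Disjoint T (VS P) := hd.mono_right subset_union_left
  exact (h.Gp_le_cover hd' hcov).1.trans (Nat.mul_le_mul_right _ hT)

/-- **`|G'_p| ≤ s^2`** for `p ∈ E` -/
theorem SetUp.Gp_E_le (h : SetUp F s j P x y) {p : V} (hp : p ∈ N F x y) :
    (Gp F P x y p).card ≤ s * s := by
  obtain ⟨T, hd, -, hT, hcov⟩ := h.Gp_cover p
  have hd' : Disjoint T (VS P) := hd.mono_right subset_union_left
  exact ((h.Gp_le_cover hd' hcov).2 hp).trans (Nat.mul_le_mul_right _ (hT hp))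

end RouteA
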