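import Pool.Agent.Helper13.Res.GKill
import Pool.Agent.Helper9.Res.Cls
import Pool.Agent.Helper65.Res.Frame

/-!
# Route A: a block with an edge `{u, w, w'}` against a block of type `0`
-/

namespace Helper13.Res

open Finset Res12 RouteA Helper1.Res Helper9.Res Helper70.Res

set_option linter.unusedSectionVars false

variable {V : Type} [Fintype V] [DecidableEq V]
variable {F P : Finset (Finset V)} {s j : ℕ} {x y : V}

/-- the bound for a perfect matching of a flagged block and a block of type `0` -/
def FL (s j : ℕ) : ℤ :=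
  max (min (-(s : ℤ) - j - 6) (2 * s - 4 - 3 * j)) (min (-3 * (s : ℤ) - j) (-3 * j))

section
variable (h : SetUp F s j P x y)
include h

theorem tau_three {e f : Finset V} {u v t a b c : V} (p : Pm P e f u v t a b c) :
    T3 F P e f u v t a b c ≤ 2 * (lam F P u a + lam F P v b + lam F P t c) - 3 * j := by
  have h1 := tau_le h p.he p.hf p.hef p.hu p.ha
  have h2 := tau_le h p.he p.hf p.hef p.hv p.hb
  have h3 := tau_le h p.he p.hf p.hef p.ht p.hc
  unfold Helper9.Res.T3
  omega

omit h in
theorem sub_E_of_ty {f : Finset V} (hf0 : ty F x y f = 0) {z : V} (hz : z ∈ f) :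
    z ∈ N F x y := by
  unfold ty at hf0
  rw [card_eq_zero, sdiff_eq_empty_iff_subset] at hf0
  exact hf0 hz

/-- flag at `u`, `f` of type `0`: the two other cells have at most four outside neighbours -/
theorem flag0_four {e f : Finset V} {u v t a b c w w' : V} (p : Pm P e f u v t a b c)
    (hG : GE F P x y u w w') (hf0 : ty F x y f = 0) :
    dW F P v b + dW F P t c ≤ 4 ∧ (lb F P x y v b).card ≤ 2 ∧ (lb F P x y t c).card ≤ 2 := by
  have ha := sub_E_of_ty hf0 p.ha
  have hb := sub_E_of_ty hf0 p.hb
  have l2 : lb F P x y v b ⊆ {w, w'} := by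
    intro z hz
    by_contra hcon
    simp only [mem_insert, mem_singleton, not_or] at hcon
    exact (gk_label h p hG hz (fun h' => hcon.1 h'.symm) (fun h' => hcon.2 h'.symm)).1 ha
  have l3 : lb F P x y t c ⊆ {w, w'} := by
    intro z hz
    by_contra hcon
    simp only [mem_insert, mem_singleton, not_or] at hcon
    exact (gk_label h p.swap23 hG hz (fun h' => hcon.1 h'.symm)
      (fun h' => hcon.2 h'.symm)).1 ha
  have c2 := (card_le_card l2).trans card_le_two
  have c3 := (card_le_card l3).trans card_le_two
  have k1 := norep2 (B := lb F P x y v b) (C := lb F P x y t c) (by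
    intro z hz z' hz'
    by_contra hzz
    exact (zero_J h p.rot hz hz' hzz).2 ha)
  have k2 := norep2 (B := N F v b ∩ {x, y}) (C := N F t c ∩ {x, y}) (by
    intro z hz z' hz'
    by_contra hzz
    rw [mem_inter, mem_insert, mem_singleton] at hz hz'
    refine gk_rep h p hG (z := z) (z' := z') (mem_sdiff.2 ⟨hz.1, ?_⟩)
      (mem_sdiff.2 ⟨hz'.1, ?_⟩) hzz ?_ ?_ ?_ ?_
    · rcases hz.2 with rfl | rfl
      · exact h.avx
      · exact h.avy
    · rcases hz'.2 with rfl | rfl
      · exact h.avx
      · exact h.avy
    · rcases hz.2 with rfl | rfl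
      · exact hG.x1
      · exact hG.y1
    · rcases hz'.2 with rfl | rfl
      · exact hG.x1
      · exact hG.y1
    · rcases hz.2 with rfl | rfl
      · exact hG.x2
      · exact hG.y2
    · rcases hz'.2 with rfl | rfl
      · exact hG.x2
      · exact hG.y2)
  have d2 : (N F v b ∩ {x, y}).card ≤ 2 := (card_le_card inter_subset_right).trans card_le_two
  have d3 : (N F t c ∩ {x, y}).card ≤ 2 := (card_le_card inter_subset_right).trans card_le_two
  rw [h.dW_eq, h.dW_eq]
  omega

/-- the part of the two other cells, with the kills -/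
theorem flag0_tau {e f : Finset V} {u v t a b c w w' : V} (p : Pm P e f u v t a b c)
    (hG : GE F P x y u w w') (hf0 : ty F x y f = 0) :
    T3 F P e f u v t a b c ≤ 2 * lam F P u a - j + 3 * (lam F P v b + lam F P t c) - 3 * s := by
  have h1 := tau_le h p.he p.hf p.hef p.hu p.ha
  have h2 := gk_m3E h p hG (sub_E_of_ty hf0 p.ha)
  have h3 := (gk_m2 h p hG).1
  rw [ep_of_mem (sub_E_of_ty hf0 p.ha), ep_of_mem (sub_E_of_ty hf0 p.hb),
    ep_of_mem (sub_E_of_ty hf0 p.hc)] at h3
  unfold Helper9.Res.T3
  unfold tau at *
  omega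

/-- **flag at `u`, `f` of type `0`** -/
theorem T3_flag0 {e f : Finset V} {u v t a b c w w' : V} (p : Pm P e f u v t a b c)
    (hG : GE F P x y u w w') (hf0 : ty F x y f = 0) :
    (lam F P v b + lam F P t c ≤ -2 ∧
      T3 F P e f u v t a b c ≤ 2 * lam F P u a - 3 * s - j - 6) ∨
    (lam F P u a ≤ 1 ∧ lam F P u a + lam F P v b + lam F P t c ≤ 0 ∧
      T3 F P e f u v t a b c ≤ -3 * s - j) := by
  have hc := sub_E_of_ty hf0 p.hc
  have hb := sub_E_of_ty hf0 p.hb
  have h4 := flag0_four h p hG hf0
  have ht := flag0_tau h p hG hf0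
  have e1 := dW_le_lb h u a
  by_cases hh : 4 ≤ dW F P u a
  · left
    have n2 : lb F P x y v b = ∅ := by
      by_contra hne
      obtain ⟨z', hz'⟩ := nonempty_iff_ne_empty.2 hne
      obtain ⟨z, hz, hzz⟩ := exists_mem_ne1 (A := lb F P x y u a) (by omega) z'
      exact (zero_J h p hz hz' hzz).2 hc
    have n3 : lb F P x y t c = ∅ := by
      by_contra hne
      obtain ⟨z', hz'⟩ := nonempty_iff_ne_empty.2 hne
      obtain ⟨z, hz, hzz⟩ := exists_mem_ne1 (A := lb F P x y u a) (by omega) z'
      exact (zero_J h p.swap23 hz hz' hzz).2 hb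
    have hl : (lb F P x y u a).Nonempty := by
      rw [← card_pos]
      omega
    have k := lam_two_le h p hl n2 n3
    exact ⟨k, by omega⟩
  · right
    have hS : lam F P u a + lam F P v b + lam F P t c ≤ 0 ∧
        (dW F P u a = 3 → lam F P v b + lam F P t c ≤ -1) := by
      by_cases h3 : dW F P u a = 3
      · have hl : (lb F P x y u a).Nonempty := by
          rw [← card_pos]
          omega
        have small : ∀ {q r q' r' : V}, Pm P e f u q q' a r r' → (lb F P x y q r).card ≤ 2 →
            dW F P q r ≤ 3 := by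
          intro q r q' r' p' hq
          by_contra hcon
          have e2 := dW_le_lb h q r
          obtain ⟨z', hz'⟩ := hl
          obtain ⟨z, hz, hzz⟩ := exists_mem_ne1 (A := lb F P x y q r) (by omega) z'
          exact (zero_J h p' hz' hz hzz.symm).2 (sub_E_of_ty hf0 p'.hc)
        have s2 := small p h4.2.1
        have s3 := small p.swap23 h4.2.2
        have k := norep_fat (norep h p) (by
          unfold RouteA.dW at h3
          omega)
        unfold RouteA.dW at h3 s2 s3
        unfold lam RouteA.dW
        omega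
      · unfold lam
        omega
    refine ⟨?_, hS.1, ?_⟩
    · unfold lam
      omega
    · have k2 : lam F P v b + lam F P t c ≤ 0 := by
        unfold lam
        omega
      by_cases h3 : dW F P u a = 3
      · have k3 := hS.2 h3
        have k1 : lam F P u a = 1 := by
          unfold lam
          omega
        omega
      · have k1 : lam F P u a ≤ 0 := by
          unfold lam
          omega
        omega

/-- every perfect matching of a flagged block and a block of type `0` -/
theorem T3_flag0_num {e f : Finset V} {u v t a b c w w' : V} (p : Pm P e f u v t a b c)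
    (hG : GE F P x y u w w') (hf0 : ty F x y f = 0) : T3 F P e f u v t a b c ≤ FL s j := by
  have h3 := tau_three h p
  have h1 := h.lam_le u a
  unfold FL
  rcases T3_flag0 h p hG hf0 with ⟨k1, k2⟩ | ⟨k0, k1, k2⟩
  · apply le_max_of_le_left
    apply le_min
    · omega
    · omega
  · apply le_max_of_le_right
    apply le_min
    · omega
    · omega

/-- **the pair bound**: a flagged block and a block of type `0` -/
theorem pair_flag0 {e f : Finset V} (he : e ∈ P) (hf : f ∈ P) (hef : e ≠ f) {z w w' : V}
    (hz : z ∈ e) (hG : GE F P x y z w w') (hf0 : ty F x y f = 0) :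
    ∑ q ∈ e, ∑ r ∈ f, tau F P e f q r ≤ 3 * FL s j := by
  refine sum_cells_le (tau F P e f) (FL s j) h.threeP he hf hef ?_
  intro u v t a b c p
  have hblock := block_eq h p.he p.hu p.hv p.ht p.huv p.hut p.hvt
  rw [← hblock, mem_insert, mem_insert, mem_singleton] at hz
  rcases hz with rfl | rfl | rfl
  · exact T3_flag0_num h p hG hf0
  · have := T3_flag0_num h p.rot hG hf0
    unfold Helper9.Res.T3 at this
    omega
  · have := T3_flag0_num h p.rot.rot hG hf0
    unfold Helper9.Res.T3 at this
    omega

/-- the same with the two blocks exchanged -/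
theorem pair_flag0' {e f : Finset V} (he : e ∈ P) (hf : f ∈ P) (hef : e ≠ f) {z w w' : V}
    (hz : z ∈ e) (hG : GE F P x y z w w') (hf0 : ty F x y f = 0) :
    ∑ r ∈ f, ∑ q ∈ e, tau F P f e r q ≤ 3 * FL s j := by
  have h1 := pair_flag0 h he hf hef hz hG hf0
  rw [sum_comm]
  refine le_trans (le_of_eq ?_) h1
  refine sum_congr rfl fun q hq => sum_congr rfl fun r hr => ?_
  unfold tau
  have e1 : m3 F P f e r q = m3 F P e f q r := m3_comm f e r q
  have e2 : (m2 F f e r q) = (m2 F e f q r) := by
    unfold m2
    rw [union_comm, pair_comm]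
    congr 1
    ext z'
    rw [triple_comm12]
  rw [e1, e2, RouteA.lam_comm]

end

end Helper13.Res
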