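import Pool.Agent.Helper9.Res.PM
import Pool.Agent.Helper13.Res.Caps

/-!
# Route A, (D): the kills of an edge `{u, w, w'}` with `w`, `w'` outside `VS P ∪ {x, y}`

`{ua, vb, tc}` is a perfect matching of the cells of the blocks `e = {u, v, t}`, `f = {a, b, c}`.
-/

namespace Helper13.Res

open Finset Res12 RouteA Helper1.Res Helper9.Res Helper70.Res

set_option linter.unusedSectionVars false

variable {V : Type} [Fintype V] [DecidableEq V]
variable {F P : Finset (Finset V)} {s j : ℕ} {x y : V}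

/-- `{u, w, w'}` is an edge with two points outside `VS P ∪ {x, y}` -/
structure GE (F P : Finset (Finset V)) (x y u w w' : V) : Prop where
  mem : ({u, w, w'} : Finset V) ∈ F
  ne : w ≠ w'
  o1 : w ∉ VS P
  o2 : w' ∉ VS P
  x1 : w ≠ x
  x2 : w' ≠ x
  y1 : w ≠ y
  y2 : w' ≠ y

/-- the edges of `Gp` -/
theorem exists_GE (h : SetUp F s j P x y) {u : V} {k : Finset V} (hk : k ∈ Gp F P x y u) :
    ∃ w w' : V, GE F P x y u w w' ∧ k = {u, w, w'} := by
  unfold Gp at hk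
  rw [mem_filter] at hk
  obtain ⟨hkF, htr, hxk, hyk⟩ := hk
  have hu : u ∈ k ∩ VS P := by rw [htr]; exact mem_singleton_self u
  rw [mem_inter] at hu
  have h2 : (k.erase u).card = 2 := by rw [card_erase_of_mem hu.1, h.three k hkF]
  obtain ⟨w, w', hne, hE⟩ := card_eq_two.1 h2
  have heq : k = {u, w, w'} := by rw [← insert_erase hu.1, hE]
  have hw : w ∈ k.erase u := by rw [hE]; simp
  have hw' : w' ∈ k.erase u := by rw [hE]; simp
  have out : ∀ z ∈ k.erase u, z ∉ VS P := by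
    intro z hz hzP
    have : z ∈ k ∩ VS P := mem_inter.2 ⟨mem_of_mem_erase hz, hzP⟩
    rw [htr, mem_singleton] at this
    exact ne_of_mem_erase hz this
  refine ⟨w, w', ⟨?_, hne, out w hw, out w' hw', ?_, ?_, ?_, ?_⟩, heq⟩
  · rw [← heq]; exact hkF
  · rintro rfl; exact hxk (mem_of_mem_erase hw)
  · rintro rfl; exact hxk (mem_of_mem_erase hw')
  · rintro rfl; exact hyk (mem_of_mem_erase hw)
  · rintro rfl; exact hyk (mem_of_mem_erase hw')

/-- `G'_u` has no cover with two points -/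
def Rob (F P : Finset (Finset V)) (x y u : V) : Prop :=
  ∀ z z' : V, ∃ w w' : V, GE F P x y u w w' ∧ w ≠ z ∧ w ≠ z' ∧ w' ≠ z ∧ w' ≠ z'

/-- **degenerate `G'_u`**: at most `2 (s + 1)` edges, at most `2 s` if `u ∈ E` -/
theorem Gp_le_of_not_rob (h : SetUp F s j P x y) {u : V} (hn : ¬ Rob F P x y u) :
    (Gp F P x y u).card ≤ 2 * (s + 1) ∧ (u ∈ N F x y → (Gp F P x y u).card ≤ 2 * s) := by
  unfold Rob at hn
  push Not at hn
  obtain ⟨z, z', hz⟩ := hn
  have hT : Disjoint (({z, z'} : Finset V).filter (fun v => v ∉ VS P)) (VS P) := by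
    rw [Finset.disjoint_left]
    intro v hv hv'
    exact (mem_filter.1 hv).2 hv'
  have hcov : ∀ e ∈ Gp F P x y u,
      (e ∩ (({z, z'} : Finset V).filter (fun v => v ∉ VS P))).Nonempty := by
    intro k hk
    obtain ⟨w, w', hG, rfl⟩ := exists_GE h hk
    by_cases h1 : w = z
    · exact ⟨w, mem_inter.2 ⟨by simp, mem_filter.2 ⟨by simp [h1], hG.o1⟩⟩⟩
    by_cases h2 : w = z'
    · exact ⟨w, mem_inter.2 ⟨by simp, mem_filter.2 ⟨by simp [h2], hG.o1⟩⟩⟩
    by_cases h3 : w' = z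
    · exact ⟨w', mem_inter.2 ⟨by simp, mem_filter.2 ⟨by simp [h3], hG.o2⟩⟩⟩
    have h4 := hz w w' hG h1 h2 h3
    exact ⟨w', mem_inter.2 ⟨by simp, mem_filter.2 ⟨by simp [h4], hG.o2⟩⟩⟩
  have hc : (({z, z'} : Finset V).filter (fun v => v ∉ VS P)).card ≤ 2 :=
    (card_le_card (filter_subset _ _)).trans card_le_two
  obtain ⟨h1, h2⟩ := h.Gp_le_cover hT hcov
  exact ⟨h1.trans (Nat.mul_le_mul_right _ hc), fun hu => (h2 hu).trans (Nat.mul_le_mul_right _ hc)⟩

theorem Rob.exists_GE {u : V} (hr : Rob F P x y u) : ∃ w w' : V, GE F P x y u w w' := by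
  obtain ⟨w, w', h1, -⟩ := hr u u
  exact ⟨w, w', h1⟩

theorem disjG {u w w' : V} {k : Finset V} (h1 : u ∉ k) (h2 : w ∉ k) (h3 : w' ∉ k) :
    Disjoint ({u, w, w'} : Finset V) k := by
  rw [Finset.disjoint_left]
  intro z hz hz'
  simp only [mem_insert, mem_singleton] at hz
  rcases hz with rfl | rfl | rfl
  · exact h1 hz'
  · exact h2 hz'
  · exact h3 hz'

section
variable (h : SetUp F s j P x y)
include h

theorem GE.symm' {u w w' : V} (hG : GE F P x y u w w') : GE F P x y u w' w := by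
  refine ⟨?_, hG.ne.symm, hG.o2, hG.o1, hG.x2, hG.x1, hG.y2, hG.y1⟩
  rw [pair_comm]
  exact hG.mem

/-- two blocks, K1 -/
theorem GE.k1 {e f : Finset V} (he : e ∈ P) (hf : f ∈ P) {u w w' : V}
    (hG : GE F P x y u w w') (hu : u ∈ e) {k k' : Finset V} (hk : k ∈ F) (hk' : k' ∈ F)
    (l : ∀ z ∈ k, z ∈ e ∨ z ∈ f ∨ z ∉ VS P) (l' : ∀ z ∈ k', z ∈ e ∨ z ∈ f ∨ z ∉ VS P)
    (h1 : u ∉ k ∧ w ∉ k ∧ w' ∉ k) (h2 : u ∉ k' ∧ w ∉ k' ∧ w' ∉ k') (hd : Disjoint k k') :
    False := by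
  refine two_blocks (toMM h) he hf hG.mem hk hk' (disjG h1.1 h1.2.1 h1.2.2)
    (disjG h2.1 h2.2.1 h2.2.2) hd ?_ l l'
  intro z hz
  simp only [mem_insert, mem_singleton] at hz
  rcases hz with rfl | rfl | rfl
  · exact Or.inl hu
  · exact Or.inr (Or.inr hG.o1)
  · exact Or.inr (Or.inr hG.o2)

/-- two blocks, K2 -/
theorem GE.k2 {e f : Finset V} (he : e ∈ P) (hf : f ∈ P) (hef : e ≠ f) {u w w' : V}
    (hG : GE F P x y u w w') (hu : u ∈ e) {k : Finset V} (hk : k ∈ F)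
    (l : ∀ z ∈ k, z ∈ e ∨ z ∈ f ∨ (z ∉ VS P ∧ z ≠ x ∧ z ≠ y))
    (h1 : u ∉ k ∧ w ∉ k ∧ w' ∉ k) {z : V} (hz : z ∈ e ∨ z ∈ f) (hzu : z ≠ u) (hzk : z ∉ k) :
    z ∉ N F x y := by
  intro hzE
  have := two_blocks_cov (toMM h) h.avx h.avy he hf hef hG.mem hk (disjG h1.1 h1.2.1 h1.2.2)
    (by
      intro z hz
      simp only [mem_insert, mem_singleton] at hz
      rcases hz with rfl | rfl | rfl
      · exact Or.inl hu
      · exact Or.inr (Or.inr ⟨hG.o1, hG.x1, hG.y1⟩)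
      · exact Or.inr (Or.inr ⟨hG.o2, hG.x2, hG.y2⟩)) l hzE hz
  have hzP : z ∈ VS P := by
    rcases hz with hz | hz
    · exact subset_VS he hz
    · exact subset_VS hf hz
  simp only [mem_insert, mem_singleton] at this
  rcases this with (h' | h' | h') | h'
  · exact hzu h'
  · exact hG.o1 (h' ▸ hzP)
  · exact hG.o2 (h' ▸ hzP)
  · exact hzk h'

/-- three blocks, K1 -/
theorem GE.k1' {e f g : Finset V} (he : e ∈ P) (hf : f ∈ P) (hg : g ∈ P) {u w w' : V}
    (hG : GE F P x y u w w') (hu : u ∈ e) {k k' k'' : Finset V} (hk : k ∈ F) (hk' : k' ∈ F)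
    (hk'' : k'' ∈ F)
    (l : ∀ z ∈ k, z ∈ e ∨ z ∈ f ∨ z ∈ g ∨ z ∉ VS P)
    (l' : ∀ z ∈ k', z ∈ e ∨ z ∈ f ∨ z ∈ g ∨ z ∉ VS P)
    (l'' : ∀ z ∈ k'', z ∈ e ∨ z ∈ f ∨ z ∈ g ∨ z ∉ VS P)
    (h1 : u ∉ k ∧ w ∉ k ∧ w' ∉ k) (h2 : u ∉ k' ∧ w ∉ k' ∧ w' ∉ k')
    (h3 : u ∉ k'' ∧ w ∉ k'' ∧ w' ∉ k'')
    (hd : Disjoint k k') (hd' : Disjoint k k'') (hd'' : Disjoint k' k'') : False := by
  refine three_blocks (toMM h) he hf hg hG.mem hk hk' hk'' (disjG h1.1 h1.2.1 h1.2.2)
    (disjG h2.1 h2.2.1 h2.2.2) (disjG h3.1 h3.2.1 h3.2.2) hd hd' hd'' ?_ l l' l''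
  intro z hz
  simp only [mem_insert, mem_singleton] at hz
  rcases hz with rfl | rfl | rfl
  · exact Or.inl hu
  · exact Or.inr (Or.inr (Or.inr hG.o1))
  · exact Or.inr (Or.inr (Or.inr hG.o2))

/-- three blocks, K2 -/
theorem GE.k2' {e f g : Finset V} (he : e ∈ P) (hf : f ∈ P) (hg : g ∈ P) (hef : e ≠ f)
    (heg : e ≠ g) (hfg : f ≠ g) {u w w' : V}
    (hG : GE F P x y u w w') (hu : u ∈ e) {k k' : Finset V} (hk : k ∈ F) (hk' : k' ∈ F)
    (l : ∀ z ∈ k, z ∈ e ∨ z ∈ f ∨ z ∈ g ∨ (z ∉ VS P ∧ z ≠ x ∧ z ≠ y))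
    (l' : ∀ z ∈ k', z ∈ e ∨ z ∈ f ∨ z ∈ g ∨ (z ∉ VS P ∧ z ≠ x ∧ z ≠ y))
    (h1 : u ∉ k ∧ w ∉ k ∧ w' ∉ k) (h2 : u ∉ k' ∧ w ∉ k' ∧ w' ∉ k') (hd : Disjoint k k')
    {z : V} (hz : z ∈ e ∨ z ∈ f ∨ z ∈ g) (hzu : z ≠ u) (hzk : z ∉ k) (hzk' : z ∉ k') :
    z ∉ N F x y := by
  intro hzE
  have := Helper1.Res.three_blocks_cov (toMM h) h.avx h.avy he hf hg hef heg hfg hG.mem hk hk'
    (disjG h1.1 h1.2.1 h1.2.2) (disjG h2.1 h2.2.1 h2.2.2) hd
    (by
      intro z hz
      simp only [mem_insert, mem_singleton] at hz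
      rcases hz with rfl | rfl | rfl
      · exact Or.inl hu
      · exact Or.inr (Or.inr (Or.inr ⟨hG.o1, hG.x1, hG.y1⟩))
      · exact Or.inr (Or.inr (Or.inr ⟨hG.o2, hG.x2, hG.y2⟩))) l l' hzE hz
  have hzP : z ∈ VS P := by
    rcases hz with hz | hz | hz
    · exact subset_VS he hz
    · exact subset_VS hf hz
    · exact subset_VS hg hz
  simp only [mem_insert, mem_singleton] at this
  rcases this with (h' | h' | h') | h' | h'
  · exact hzu h'
  · exact hG.o1 (h' ▸ hzP)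
  · exact hG.o2 (h' ▸ hzP)
  · exact hzk h'
  · exact hzk' h'

end

theorem nm3 {z p q r : V} (h1 : z ≠ p) (h2 : z ≠ q) (h3 : z ≠ r) : z ∉ ({p, q, r} : Finset V) := by
  simp only [mem_insert, mem_singleton, not_or]
  exact ⟨h1, h2, h3⟩

/-- `ep` is `0` on `E` -/
theorem ep_cases (F : Finset (Finset V)) (x y z : V) :
    (z ∈ N F x y ∧ ep F x y z = 0) ∨ (z ∉ N F x y ∧ ep F x y z = 1) := by
  unfold ep
  split_ifs with hz
  · exact Or.inl ⟨hz, rfl⟩
  · exact Or.inr ⟨hz, rfl⟩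

theorem ep_of_not {z : V} (hz : z ∉ N F x y) : ep F x y z = 1 := by
  unfold ep
  rw [if_neg hz]

theorem ep_of_mem {z : V} (hz : z ∈ N F x y) : ep F x y z = 0 := by
  unfold ep
  rw [if_pos hz]

/-- the number of missing triples inside `e ∪ f` through the cell `v b` -/
theorem card_m2_eq (h : SetUp F s j P x y) {e f : Finset V} {u v t a b c : V}
    (p : Pm P e f u v t a b c) :
    (m2 F e f v b).card = ms F v b u + ms F v b t + ms F v b a + ms F v b c := by
  have nef : ∀ {i k : V}, i ∈ e → k ∈ f → i ≠ k := fun hi hj =>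
    (toMM h).neq p.he p.hf p.hef hi hj
  have e1 := block_eq h p.he p.hu p.hv p.ht p.huv p.hut p.hvt
  have e2 := block_eq h p.hf p.ha p.hb p.hc p.hab p.hac p.hbc
  have hset : (e ∪ f) \ {v, b} = ({u, t, a, c} : Finset V) := by
    rw [← e1, ← e2]
    ext z
    simp only [mem_sdiff, mem_union, mem_insert, mem_singleton, not_or]
    constructor
    · rintro ⟨(h1 | h1 | h1) | (h1 | h1 | h1), h2, h3⟩ <;> tauto
    · rintro (rfl | rfl | rfl | rfl)
      · exact ⟨Or.inl (Or.inl rfl), p.huv, nef p.hu p.hb⟩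
      · exact ⟨Or.inl (Or.inr (Or.inr rfl)), p.hvt.symm, nef p.ht p.hb⟩
      · exact ⟨Or.inr (Or.inl rfl), (nef p.hv p.ha).symm, p.hab⟩
      · exact ⟨Or.inr (Or.inr (Or.inr rfl)), (nef p.hv p.hc).symm, p.hbc.symm⟩
  unfold m2
  rw [hset, card_filter, sum_insert, sum_insert, sum_insert, sum_singleton]
  · unfold ms
    have k : ∀ z : V, (if ({v, b, z} : Finset V) ∉ F then 1 else 0) =
        (if ({v, b, z} : Finset V) ∈ F then 0 else 1) := by
      intro z
      split_ifs <;> simp_all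
    rw [k, k, k, k]
    omega
  · simp only [mem_singleton]; exact p.hac
  · simp only [mem_insert, mem_singleton, not_or]
    exact ⟨nef p.ht p.ha, nef p.ht p.hc⟩
  · simp only [mem_insert, mem_singleton, not_or]
    exact ⟨p.hut, nef p.hu p.ha, nef p.hu p.hc⟩

section
variable (h : SetUp F s j P x y)
include h

/-- `{u,w,w'}`, `{v,b,c}` leave `a` -/
theorem gk_vbc {e f : Finset V} {u v t a b c w w' : V} (p : Pm P e f u v t a b c)
    (hG : GE F P x y u w w') : 1 ≤ ms F v b c + ep F x y a := by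
  by_contra hcon
  push Not at hcon
  have k1 : ms F v b c = 0 := by omega
  have nef : ∀ {i k : V}, i ∈ e → k ∈ f → i ≠ k := fun hi hj =>
    (toMM h).neq p.he p.hf p.hef hi hj
  have := hG.k2 h p.he p.hf p.hef p.hu (mem_of_ms k1) (by
    intro z hz
    simp only [mem_insert, mem_singleton] at hz
    rcases hz with rfl | rfl | rfl
    · exact Or.inl p.hv
    · exact Or.inr (Or.inl p.hb)
    · exact Or.inr (Or.inl p.hc))
    ⟨nm3 p.huv (nef p.hu p.hb) (nef p.hu p.hc),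
      nm3 (out_ne p.he p.hv hG.o1).symm (out_ne p.hf p.hb hG.o1).symm
        (out_ne p.hf p.hc hG.o1).symm,
      nm3 (out_ne p.he p.hv hG.o2).symm (out_ne p.hf p.hb hG.o2).symm
        (out_ne p.hf p.hc hG.o2).symm⟩ (z := a) (Or.inr p.ha) (nef p.hu p.ha).symm
    (nm3 (nef p.hv p.ha).symm p.hab p.hac)
  rw [ep_of_not this] at hcon
  omega

/-- `{u,w,w'}`, `{v,b,t}` leave `a` and `c` -/
theorem gk_vbt {e f : Finset V} {u v t a b c w w' : V} (p : Pm P e f u v t a b c)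
    (hG : GE F P x y u w w') : 1 ≤ ms F v b t + ep F x y a ∧ 1 ≤ ms F v b t + ep F x y c := by
  have nef : ∀ {i k : V}, i ∈ e → k ∈ f → i ≠ k := fun hi hj =>
    (toMM h).neq p.he p.hf p.hef hi hj
  by_cases k1 : ms F v b t = 0
  · have key : ∀ z, z ∈ f → z ≠ b → z ∉ N F x y := by
      intro z hz hzb
      exact hG.k2 h p.he p.hf p.hef p.hu (mem_of_ms k1) (by
        intro z hz
        simp only [mem_insert, mem_singleton] at hz
        rcases hz with rfl | rfl | rfl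
        · exact Or.inl p.hv
        · exact Or.inr (Or.inl p.hb)
        · exact Or.inl p.ht)
        ⟨nm3 p.huv (nef p.hu p.hb) p.hut,
          nm3 (out_ne p.he p.hv hG.o1).symm (out_ne p.hf p.hb hG.o1).symm
            (out_ne p.he p.ht hG.o1).symm,
          nm3 (out_ne p.he p.hv hG.o2).symm (out_ne p.hf p.hb hG.o2).symm
            (out_ne p.he p.ht hG.o2).symm⟩ (z := z) (Or.inr hz) (nef p.hu hz).symm
        (nm3 (nef p.hv hz).symm hzb (nef p.ht hz).symm)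
    rw [ep_of_not (key a p.ha p.hab), ep_of_not (key c p.hc p.hbc.symm)]
    omega
  · omega

/-- third block: `{u,w,w'}`, `{v,b,p1}`, `{t,c,p2}` leave `a` and `p3` -/
theorem gk_conf {e f g : Finset V} {u v t a b c w w' : V} (p : Pm P e f u v t a b c)
    (hG : GE F P x y u w w') (hg : g ∈ P) (heg : e ≠ g) (hfg : f ≠ g) {p1 p2 p3 : V}
    (h1 : p1 ∈ g) (h2 : p2 ∈ g) (h3 : p3 ∈ g) (h12 : p1 ≠ p2) (h13 : p1 ≠ p3) (h23 : p2 ≠ p3) :
    1 ≤ ms F v b p1 + ms F t c p2 + ep F x y a ∧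
      1 ≤ ms F v b p1 + ms F t c p2 + ep F x y p3 := by
  have nef : ∀ {i k : V}, i ∈ e → k ∈ f → i ≠ k := fun hi hj =>
    (toMM h).neq p.he p.hf p.hef hi hj
  have neg : ∀ {i k : V}, i ∈ e → k ∈ g → i ≠ k := fun hi hj => (toMM h).neq p.he hg heg hi hj
  have nfg : ∀ {i k : V}, i ∈ f → k ∈ g → i ≠ k := fun hi hj => (toMM h).neq p.hf hg hfg hi hj
  by_cases k0 : ms F v b p1 + ms F t c p2 = 0
  · have k1 : ms F v b p1 = 0 := by omega
    have k2 : ms F t c p2 = 0 := by omega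
    have key : ∀ z, z ∈ e ∨ z ∈ f ∨ z ∈ g → z ≠ u → z ∉ ({v, b, p1} : Finset V) →
        z ∉ ({t, c, p2} : Finset V) → z ∉ N F x y := by
      intro z hz hzu hzk hzk'
      exact hG.k2' h p.he p.hf hg p.hef heg hfg p.hu (mem_of_ms k1) (mem_of_ms k2) (by
        intro z hz
        simp only [mem_insert, mem_singleton] at hz
        rcases hz with rfl | rfl | rfl
        · exact Or.inl p.hv
        · exact Or.inr (Or.inl p.hb)
        · exact Or.inr (Or.inr (Or.inl h1))) (by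
        intro z hz
        simp only [mem_insert, mem_singleton] at hz
        rcases hz with rfl | rfl | rfl
        · exact Or.inl p.ht
        · exact Or.inr (Or.inl p.hc)
        · exact Or.inr (Or.inr (Or.inl h2)))
        ⟨nm3 p.huv (nef p.hu p.hb) (neg p.hu h1),
          nm3 (out_ne p.he p.hv hG.o1).symm (out_ne p.hf p.hb hG.o1).symm
            (out_ne hg h1 hG.o1).symm,
          nm3 (out_ne p.he p.hv hG.o2).symm (out_ne p.hf p.hb hG.o2).symm
            (out_ne hg h1 hG.o2).symm⟩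
        ⟨nm3 p.hut (nef p.hu p.hc) (neg p.hu h2),
          nm3 (out_ne p.he p.ht hG.o1).symm (out_ne p.hf p.hc hG.o1).symm
            (out_ne hg h2 hG.o1).symm,
          nm3 (out_ne p.he p.ht hG.o2).symm (out_ne p.hf p.hc hG.o2).symm
            (out_ne hg h2 hG.o2).symm⟩
        (disj3 ⟨p.hvt, nef p.hv p.hc, neg p.hv h2, (nef p.ht p.hb).symm, p.hbc, nfg p.hb h2,
          (neg p.ht h1).symm, (nfg p.hc h1).symm, h12⟩) hz hzu hzk hzk'
    have ka := key a (Or.inr (Or.inl p.ha)) (nef p.hu p.ha).symm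
      (nm3 (nef p.hv p.ha).symm p.hab (nfg p.ha h1))
      (nm3 (nef p.ht p.ha).symm p.hac (nfg p.ha h2))
    have kb := key p3 (Or.inr (Or.inr h3)) (neg p.hu h3).symm
      (nm3 (neg p.hv h3).symm (nfg p.hb h3).symm h13.symm)
      (nm3 (neg p.ht h3).symm (nfg p.hc h3).symm h23.symm)
    rw [ep_of_not ka, ep_of_not kb]
    omega
  · omega

/-- third block, the two rows together -/
theorem gk_row {e f g : Finset V} {u v t a b c w w' : V} (p : Pm P e f u v t a b c)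
    (hG : GE F P x y u w w') (hg : g ∈ P) (heg : e ≠ g) (hfg : f ≠ g) :
    3 ≤ ∑ z ∈ g, ms F v b z + ∑ z ∈ g, ms F t c z + ty F x y g ∧
      3 ≤ ∑ z ∈ g, ms F v b z + ∑ z ∈ g, ms F t c z + 3 * ep F x y a := by
  obtain ⟨p1, p2, p3, h1, h2, h3, h12, h13, h23, hge⟩ := exists_three (h.threeP g hg)
  have k1 := gk_conf h p hG hg heg hfg h1 h2 h3 h12 h13 h23
  have k2 := gk_conf h p hG hg heg hfg h2 h3 h1 h23 h12.symm h13.symm
  have k3 := gk_conf h p hG hg heg hfg h3 h1 h2 h13.symm h23.symm h12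
  rw [ty_eq, hge, sum3 h12 h13 h23, sum3 h12 h13 h23, sum3 h12 h13 h23]
  omega

/-- `m3` of the two cells in the rows `v`, `t`: in general -/
theorem gk_m3 {e f : Finset V} {u v t a b c w w' : V} (p : Pm P e f u v t a b c)
    (hG : GE F P x y u w w') :
    3 * s + (ty F x y e + ty F x y f) ≤
      (m3 F P e f v b).card + (m3 F P e f t c).card + j + 6 := by
  have hc := card_third h p.he p.hf p.hef
  have ht := sum_ty_third h p.he p.hf p.hef
  have h2 : ∑ g ∈ P \ {e, f}, 3 ≤ ∑ g ∈ P \ {e, f},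
      (∑ z ∈ g, ms F v b z + ∑ z ∈ g, ms F t c z + ty F x y g) := by
    refine sum_le_sum fun g hg => ?_
    obtain ⟨g1, g2, g3⟩ := third_ne h hg
    exact (gk_row h p hG g1 g2 g3).1
  rw [sum_const, smul_eq_mul, sum_add_distrib, sum_add_distrib, ← card_m3 h, ← card_m3 h] at h2
  omega

/-- `m3` of the two cells in the rows `v`, `t` when `a ∈ E` -/
theorem gk_m3E {e f : Finset V} {u v t a b c w w' : V} (p : Pm P e f u v t a b c)
    (hG : GE F P x y u w w') (ha : a ∈ N F x y) :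
    3 * s ≤ (m3 F P e f v b).card + (m3 F P e f t c).card + 6 := by
  have hc := card_third h p.he p.hf p.hef
  have h2 : ∑ g ∈ P \ {e, f}, 3 ≤ ∑ g ∈ P \ {e, f},
      (∑ z ∈ g, ms F v b z + ∑ z ∈ g, ms F t c z) := by
    refine sum_le_sum fun g hg => ?_
    obtain ⟨g1, g2, g3⟩ := third_ne h hg
    have := (gk_row h p hG g1 g2 g3).2
    rw [ep_of_mem ha] at this
    omega
  rw [sum_const, smul_eq_mul, sum_add_distrib, ← card_m3 h, ← card_m3 h] at h2
  omega

/-- `m2` of the two cells in the rows `v`, `t` -/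
theorem gk_m2 {e f : Finset V} {u v t a b c w w' : V} (p : Pm P e f u v t a b c)
    (hG : GE F P x y u w w') :
    6 ≤ (m2 F e f v b).card + (m2 F e f t c).card + ep F x y b + ep F x y c +
        6 * ep F x y a ∧
    2 ≤ (m2 F e f v b).card + 2 * ep F x y c ∧ 2 ≤ (m2 F e f t c).card + 2 * ep F x y b := by
  have p' : Pm P e f u t v a c b := p.swap23
  rw [card_m2_eq h p, card_m2_eq h p']
  have p2 : Pm P e f u v t c b a := ⟨p.he, p.hf, p.hef, p.hu, p.hv, p.ht, p.hc, p.hb, p.ha,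
    p.huv, p.hut, p.hvt, p.hbc.symm, p.hac.symm, p.hab.symm⟩
  have p2' : Pm P e f u t v b c a := ⟨p.he, p.hf, p.hef, p.hu, p.ht, p.hv, p.hb, p.hc, p.ha,
    p.hut, p.huv, p.hvt.symm, p.hbc, p.hab.symm, p.hac.symm⟩
  have k1 := gk_vbc h p hG
  have k2 := gk_vbc h p' hG
  have k3 := gk_vbt h p hG
  have k4 := gk_vbt h p' hG
  have k5 := gk_vbc h p2 hG
  have k6 := gk_vbc h p2' hG
  refine ⟨?_, ?_, ?_⟩ <;> omega

/-- the two points of `e` besides `u` are not in `E` -/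
theorem gk_own {e : Finset V} (he : e ∈ P) {u v w w' : V} (hu : u ∈ e) (hv : v ∈ e)
    (huv : u ≠ v) (hG : GE F P x y u w w') : v ∉ N F x y := by
  obtain ⟨t, h1, h2, h3⟩ := block_at2 h he hu hv huv
  rw [h1] at he
  exact (own_G (toMM h) h.avx h.avy he hG.o1 hG.o2 hG.x1 hG.y1 hG.x2 hG.y2 hG.mem).1

/-- a label of `v b` with another outside point leaves `a` and `c` -/
theorem gk_label {e f : Finset V} {u v t a b c w w' w'' : V} (p : Pm P e f u v t a b c)
    (hG : GE F P x y u w w') (hl : w'' ∈ lb F P x y v b) (h1 : w ≠ w'') (h2 : w' ≠ w'') :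
    a ∉ N F x y ∧ c ∉ N F x y := by
  have nef : ∀ {i k : V}, i ∈ e → k ∈ f → i ≠ k := fun hi hj =>
    (toMM h).neq p.he p.hf p.hef hi hj
  obtain ⟨l1, l2, l3, l4⟩ := mem_lb.1 hl
  have key : ∀ z, z ∈ f → z ≠ b → z ∉ N F x y := by
    intro z hz hzb
    exact hG.k2 h p.he p.hf p.hef p.hu l1 (by
      intro z hz
      simp only [mem_insert, mem_singleton] at hz
      rcases hz with rfl | rfl | rfl
      · exact Or.inl p.hv
      · exact Or.inr (Or.inl p.hb)
      · exact Or.inr (Or.inr ⟨l2, l3, l4⟩))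
      ⟨nm3 p.huv (nef p.hu p.hb) (out_ne p.he p.hu l2),
        nm3 (out_ne p.he p.hv hG.o1).symm (out_ne p.hf p.hb hG.o1).symm h1,
        nm3 (out_ne p.he p.hv hG.o2).symm (out_ne p.hf p.hb hG.o2).symm h2⟩
      (z := z) (Or.inr hz) (nef p.hu hz).symm
      (nm3 (nef p.hv hz).symm hzb (out_ne p.hf hz l2))
  exact ⟨key a p.ha p.hab, key c p.hc p.hbc.symm⟩

/-- no representatives of the outside neighbourhoods of `v b`, `t c` besides `w`, `w'` -/
theorem gk_rep {e f : Finset V} {u v t a b c w w' z z' : V} (p : Pm P e f u v t a b c)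
    (hG : GE F P x y u w w') (hz : z ∈ N F v b \ VS P) (hz' : z' ∈ N F t c \ VS P)
    (hzz : z ≠ z') (h1 : w ≠ z) (h2 : w ≠ z') (h3 : w' ≠ z) (h4 : w' ≠ z') : False := by
  have nef : ∀ {i k : V}, i ∈ e → k ∈ f → i ≠ k := fun hi hj =>
    (toMM h).neq p.he p.hf p.hef hi hj
  rw [mem_sdiff, mem_N] at hz hz'
  refine hG.k1 h p.he p.hf p.hu hz.1 hz'.1 (by
    intro k hk
    simp only [mem_insert, mem_singleton] at hk
    rcases hk with rfl | rfl | rfl
    · exact Or.inl p.hv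
    · exact Or.inr (Or.inl p.hb)
    · exact Or.inr (Or.inr hz.2)) (by
    intro k hk
    simp only [mem_insert, mem_singleton] at hk
    rcases hk with rfl | rfl | rfl
    · exact Or.inl p.ht
    · exact Or.inr (Or.inl p.hc)
    · exact Or.inr (Or.inr hz'.2))
    ⟨nm3 p.huv (nef p.hu p.hb) (out_ne p.he p.hu hz.2),
      nm3 (out_ne p.he p.hv hG.o1).symm (out_ne p.hf p.hb hG.o1).symm h1,
      nm3 (out_ne p.he p.hv hG.o2).symm (out_ne p.hf p.hb hG.o2).symm h3⟩
    ⟨nm3 p.hut (nef p.hu p.hc) (out_ne p.he p.hu hz'.2),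
      nm3 (out_ne p.he p.ht hG.o1).symm (out_ne p.hf p.hc hG.o1).symm h2,
      nm3 (out_ne p.he p.ht hG.o2).symm (out_ne p.hf p.hc hG.o2).symm h4⟩
    (disj3 ⟨p.hvt, nef p.hv p.hc, out_ne p.he p.hv hz'.2, (nef p.ht p.hb).symm, p.hbc,
      out_ne p.hf p.hb hz'.2, (out_ne p.he p.ht hz.2).symm, (out_ne p.hf p.hc hz.2).symm, hzz⟩)

/-- a label of `v b` with another outside point, the cell `t c` and a third block -/
theorem gk_zero_row {e f g : Finset V} {u v t a b c w w' w'' : V} (p : Pm P e f u v t a b c)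
    (hG : GE F P x y u w w') (hl : w'' ∈ lb F P x y v b) (hw1 : w ≠ w'') (hw2 : w' ≠ w'')
    (hg : g ∈ P) (heg : e ≠ g) (hfg : f ≠ g) : 3 ≤ ∑ z ∈ g, ms F t c z + ty F x y g := by
  have nef : ∀ {i k : V}, i ∈ e → k ∈ f → i ≠ k := fun hi hj =>
    (toMM h).neq p.he p.hf p.hef hi hj
  have neg : ∀ {i k : V}, i ∈ e → k ∈ g → i ≠ k := fun hi hj => (toMM h).neq p.he hg heg hi hj
  have nfg : ∀ {i k : V}, i ∈ f → k ∈ g → i ≠ k := fun hi hj => (toMM h).neq p.hf hg hfg hi hj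
  obtain ⟨l1, l2, l3, l4⟩ := mem_lb.1 hl
  have key : ∀ z z' : V, z ∈ g → z' ∈ g → z ≠ z' → 1 ≤ ms F t c z + ep F x y z' := by
    intro z z' hz hz' hzz
    by_cases k1 : ms F t c z = 0
    · have := hG.k2' h p.he p.hf hg p.hef heg hfg p.hu l1 (mem_of_ms k1) (by
          intro k hk
          simp only [mem_insert, mem_singleton] at hk
          rcases hk with rfl | rfl | rfl
          · exact Or.inl p.hv
          · exact Or.inr (Or.inl p.hb)
          · exact Or.inr (Or.inr (Or.inr ⟨l2, l3, l4⟩))) (by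
          intro k hk
          simp only [mem_insert, mem_singleton] at hk
          rcases hk with rfl | rfl | rfl
          · exact Or.inl p.ht
          · exact Or.inr (Or.inl p.hc)
          · exact Or.inr (Or.inr (Or.inl hz)))
          ⟨nm3 p.huv (nef p.hu p.hb) (out_ne p.he p.hu l2),
            nm3 (out_ne p.he p.hv hG.o1).symm (out_ne p.hf p.hb hG.o1).symm hw1,
            nm3 (out_ne p.he p.hv hG.o2).symm (out_ne p.hf p.hb hG.o2).symm hw2⟩
          ⟨nm3 p.hut (nef p.hu p.hc) (neg p.hu hz),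
            nm3 (out_ne p.he p.ht hG.o1).symm (out_ne p.hf p.hc hG.o1).symm
              (out_ne hg hz hG.o1).symm,
            nm3 (out_ne p.he p.ht hG.o2).symm (out_ne p.hf p.hc hG.o2).symm
              (out_ne hg hz hG.o2).symm⟩
          (disj3 ⟨p.hvt, nef p.hv p.hc, neg p.hv hz, (nef p.ht p.hb).symm, p.hbc, nfg p.hb hz,
            (out_ne p.he p.ht l2).symm, (out_ne p.hf p.hc l2).symm, (out_ne hg hz l2).symm⟩)
          (z := z') (Or.inr (Or.inr hz')) (neg p.hu hz').symm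
          (nm3 (neg p.hv hz').symm (nfg p.hb hz').symm (out_ne hg hz' l2))
          (nm3 (neg p.ht hz').symm (nfg p.hc hz').symm hzz.symm)
      rw [ep_of_not this]
      omega
    · omega
  obtain ⟨p1, p2, p3, h1, h2, h3, h12, h13, h23, hge⟩ := exists_three (h.threeP g hg)
  have k1 := key p1 p2 h1 h2 h12
  have k2 := key p2 p3 h2 h3 h23
  have k3 := key p3 p1 h3 h1 h13.symm
  rw [ty_eq, hge, sum3 h12 h13 h23, sum3 h12 h13 h23]
  omega

/-- a label of `v b` with another outside point and the cell `t c` -/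
theorem gk_zero {e f : Finset V} {u v t a b c w w' w'' : V} (p : Pm P e f u v t a b c)
    (hG : GE F P x y u w w') (hl : w'' ∈ lb F P x y v b) (hw1 : w ≠ w'') (hw2 : w' ≠ w'') :
    3 * s + (ty F x y e + ty F x y f) ≤ (m3 F P e f t c).card + j + 6 := by
  have hc := card_third h p.he p.hf p.hef
  have ht := sum_ty_third h p.he p.hf p.hef
  have h2 : ∑ g ∈ P \ {e, f}, 3 ≤ ∑ g ∈ P \ {e, f}, (∑ z ∈ g, ms F t c z + ty F x y g) := by
    refine sum_le_sum fun g hg => ?_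
    obtain ⟨g1, g2, g3⟩ := third_ne h hg
    exact gk_zero_row h p hG hl hw1 hw2 g1 g2 g3
  rw [sum_const, smul_eq_mul, sum_add_distrib, ← card_m3 h] at h2
  omega

end

end Helper13.Res
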