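import Mathlib
import Pool.Agent.Helper12.Res.Defs

/-!
# Project RES (MP_d365ae_co): label caps (LA6')

`P` is a maximum matching.  The number of third vertices of a pair outside `VS P` is at most
`s + 2` (`Hyp.switch`); here are the sharper bounds, via components of `P ∪ Q`.
-/

namespace Helper13.Res

open Finset Res12

set_option linter.unusedSectionVars false

variable {V : Type} [Fintype V] [DecidableEq V]

/-- every member of `E` is inside `S` or disjoint from `S` -/
def Closed (E : Finset (Finset V)) (S : Finset V) : Prop := ∀ e ∈ E, e ⊆ S ∨ Disjoint e S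

theorem Closed.sdiff {E : Finset (Finset V)} {S T : Finset V} (hS : Closed E S)
    (hT : Closed E T) : Closed E (S \ T) := by
  intro e he
  rcases hS e he with h1 | h1
  · rcases hT e he with h2 | h2
    · right
      rw [Finset.disjoint_left]
      intro v hv hv'
      exact (mem_sdiff.1 hv').2 (h2 hv)
    · left
      intro v hv
      exact mem_sdiff.2 ⟨h1 hv, Finset.disjoint_left.1 h2 hv⟩
  · right
    exact h1.mono_right sdiff_subset

theorem Closed.union {E : Finset (Finset V)} {S T : Finset V} (hS : Closed E S)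
    (hT : Closed E T) : Closed E (S ∪ T) := by
  intro e he
  rcases hS e he with h1 | h1
  · exact Or.inl (h1.trans subset_union_left)
  · rcases hT e he with h2 | h2
    · exact Or.inl (h2.trans subset_union_right)
    · right
      rw [Finset.disjoint_union_right]
      exact ⟨h1, h2⟩

/-- the component of `p` -/
theorem exists_comp (E : Finset (Finset V)) (h3 : ∀ e ∈ E, e.card = 3) (p : V) :
    ∃ C : Finset V, p ∈ C ∧ Closed E C ∧
      C.card ≤ 1 + 2 * (E.filter (fun e => e ⊆ C)).card ∧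
      ∀ S : Finset V, p ∈ S → Closed E S → C ⊆ S := by
  classical
  let A : Finset (Finset V) := univ.filter (fun S : Finset V => p ∈ S ∧ Closed E S)
  have hA : A.Nonempty := ⟨univ, by
    simp only [A, mem_filter, mem_univ, true_and]
    intro e _
    exact Or.inl (subset_univ e)⟩
  obtain ⟨C, hC, hmin⟩ := Finset.exists_min_image A Finset.card hA
  simp only [A, mem_filter, mem_univ, true_and] at hC
  have hleast : ∀ S : Finset V, p ∈ S → Closed E S → C ⊆ S := by
    intro S hpS hS
    have h1 : C \ (C \ S) ∈ A := by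
      simp only [A, mem_filter, mem_univ, true_and]
      refine ⟨?_, hC.2.sdiff (hC.2.sdiff hS)⟩
      rw [mem_sdiff, mem_sdiff]
      exact ⟨hC.1, fun h => h.2 hpS⟩
    have h2 := hmin _ h1
    have h3 : C \ (C \ S) = C := Finset.eq_of_subset_of_card_le sdiff_subset h2
    intro v hv
    by_contra hvS
    have h4 : v ∈ C \ (C \ S) := by rw [h3]; exact hv
    exact (mem_sdiff.1 h4).2 (mem_sdiff.2 ⟨hv, hvS⟩)
  refine ⟨C, hC.1, hC.2, ?_, hleast⟩
  obtain ⟨S, hRS, hcl, hcard⟩ := exists_closed (E.filter (fun e => e ⊆ C)) (by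
    intro e he
    exact h3 e (mem_filter.1 he).1) {p}
  have hpS : p ∈ S := hRS (mem_singleton_self p)
  have h5 : C ⊆ S := by
    have h6 : Closed E (C \ (C \ S)) := by
      intro e he
      rcases hC.2 e he with h7 | h7
      · rcases hcl e (mem_filter.2 ⟨he, h7⟩) with h8 | h8
        · left
          intro v hv
          rw [mem_sdiff, mem_sdiff]
          exact ⟨h7 hv, fun h => h.2 (h8 hv)⟩
        · right
          rw [Finset.disjoint_left]
          intro v hv hv'
          rw [mem_sdiff, mem_sdiff] at hv'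
          exact hv'.2 ⟨h7 hv, Finset.disjoint_left.1 h8 hv⟩
      · exact Or.inr (h7.mono_right sdiff_subset)
    have h9 := hleast _ (by
      rw [mem_sdiff, mem_sdiff]
      exact ⟨hC.1, fun h => h.2 hpS⟩) h6
    intro v hv
    by_contra hvS
    exact (mem_sdiff.1 (h9 hv)).2 (mem_sdiff.2 ⟨hv, hvS⟩)
  calc C.card ≤ S.card := card_le_card h5
    _ ≤ _ := hcard
    _ ≤ 1 + 2 * (E.filter (fun e => e ⊆ C)).card := by
        rw [card_singleton]
        have h10 : ((E.filter (fun e => e ⊆ C)).filter (fun e => e ⊆ S)).card ≤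
            (E.filter (fun e => e ⊆ C)).card := card_le_card (filter_subset _ _)
        omega

/-- the matching `P` switched to `Q` inside `S` -/
def sw (P Q : Finset (Finset V)) (S : Finset V) : Finset (Finset V) :=
  P.filter (fun e => ¬ e ⊆ S) ∪ Q.filter (fun e => e ⊆ S)

section
variable {F : Finset (Finset V)} {s : ℕ}

theorem sw_disj (A B : Finset (Finset V)) (S : Finset V) :
    Disjoint (A.filter (fun e => ¬ e ⊆ S)) (B.filter (fun e => e ⊆ S)) := by
  rw [Finset.disjoint_left]
  intro e he hf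
  exact (mem_filter.1 he).2 (mem_filter.1 hf).2

theorem sw_matching {P Q : Finset (Finset V)} {S : Finset V} (hS : Closed (P ∪ Q) S)
    {A B : Finset (Finset V)} (hA : A ⊆ P ∪ Q) (_hB : B ⊆ P ∪ Q)
    (hmA : IsMatching A) (hmB : IsMatching B) : IsMatching (sw A B S) := by
  intro e he f hf hef
  rw [sw, mem_union, mem_filter, mem_filter] at he hf
  rcases he with he | he <;> rcases hf with hf | hf
  · exact hmA e he.1 f hf.1 hef
  · exact ((hS e (hA he.1)).resolve_left he.2).mono_right hf.2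
  · exact (((hS f (hA hf.1)).resolve_left hf.2).mono_right he.2).symm
  · exact hmB e he.1 f hf.1 hef

theorem sw_subset {P Q : Finset (Finset V)} {S : Finset V} (hP : P ⊆ F) (hQ : Q ⊆ F) :
    sw P Q S ⊆ F := by
  intro e he
  rw [sw, mem_union, mem_filter, mem_filter] at he
  rcases he with he | he
  · exact hP he.1
  · exact hQ he.1

theorem sw_card_eq (h : Hyp F s) {P Q : Finset (Finset V)} (hP : P ⊆ F) (hQ : Q ⊆ F)
    (hm : IsMatching P) (hmQ : IsMatching Q) (hc : P.card = s) (hcQ : Q.card = s)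
    {S : Finset V} (hS : Closed (P ∪ Q) S) :
    (Q.filter (fun e => e ⊆ S)).card = (P.filter (fun e => e ⊆ S)).card := by
  have hPfil := Finset.card_filter_add_card_filter_not (s := P) (fun e => e ⊆ S)
  have hQfil := Finset.card_filter_add_card_filter_not (s := Q) (fun e => e ⊆ S)
  have hle1 : (P.filter (fun e => ¬ e ⊆ S)).card + (Q.filter (fun e => e ⊆ S)).card ≤ s := by
    rw [← card_union_of_disjoint (sw_disj P Q S)]
    exact h.le _ (sw_subset hP hQ)
      (sw_matching hS subset_union_left subset_union_right hm hmQ)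
  have hle2 : (Q.filter (fun e => ¬ e ⊆ S)).card + (P.filter (fun e => e ⊆ S)).card ≤ s := by
    rw [← card_union_of_disjoint (sw_disj Q P S)]
    exact h.le _ (sw_subset hQ hP)
      (sw_matching hS subset_union_right subset_union_left hmQ hm)
  omega

theorem sw_card (h : Hyp F s) {P Q : Finset (Finset V)} (hP : P ⊆ F) (hQ : Q ⊆ F)
    (hm : IsMatching P) (hmQ : IsMatching Q) (hc : P.card = s) (hcQ : Q.card = s)
    {S : Finset V} (hS : Closed (P ∪ Q) S) : (sw P Q S).card = s := by
  have h1 := sw_card_eq h hP hQ hm hmQ hc hcQ hS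
  have hPfil := Finset.card_filter_add_card_filter_not (s := P) (fun e => e ⊆ S)
  rw [sw, card_union_of_disjoint (sw_disj P Q S)]
  omega

/-- points of `S` which `Q` misses are missed by the switched matching -/
theorem sw_avoid {P Q : Finset (Finset V)} {S : Finset V} (hS : Closed (P ∪ Q) S) {a : V}
    (ha : a ∈ S ∨ a ∉ VS P) (haQ : a ∉ VS Q) : a ∉ VS (sw P Q S) := by
  intro hav
  obtain ⟨e, he, hae⟩ := mem_VS.1 hav
  rw [sw, mem_union, mem_filter, mem_filter] at he
  rcases he with he | he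
  · rcases ha with ha | ha
    · exact Finset.disjoint_left.1 ((hS e (mem_union_left _ he.1)).resolve_left he.2) hae ha
    · exact ha (mem_VS.2 ⟨e, he.1, hae⟩)
  · exact haQ (mem_VS.2 ⟨e, he.1, hae⟩)

/-- the new points of the switched matching lie in `S` -/
theorem sw_new {P Q : Finset (Finset V)} {S : Finset V} {z : V}
    (hz : z ∈ VS (sw P Q S)) (hzP : z ∉ VS P) :
    z ∈ S \ VS (P.filter (fun e => e ⊆ S)) := by
  obtain ⟨e, he, hze⟩ := mem_VS.1 hz
  rw [sw, mem_union, mem_filter, mem_filter] at he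
  rcases he with he | he
  · exact absurd (mem_VS.2 ⟨e, he.1, hze⟩) hzP
  · refine mem_sdiff.2 ⟨he.2 hze, ?_⟩
    intro h4
    obtain ⟨f, hf, hzf⟩ := mem_VS.1 h4
    exact hzP (mem_VS.2 ⟨f, (mem_filter.1 hf).1, hzf⟩)

/-- number of possible new points -/
theorem new_card (h : Hyp F s) {P Q : Finset (Finset V)} (hP : P ⊆ F) (hQ : Q ⊆ F)
    (hm : IsMatching P) (hmQ : IsMatching Q) (hc : P.card = s) (hcQ : Q.card = s)
    {S : Finset V} (hS : Closed (P ∪ Q) S) {t : ℕ}
    (ht : S.card ≤ t + 2 * ((P ∪ Q).filter (fun e => e ⊆ S)).card) :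
    (S \ VS (P.filter (fun e => e ⊆ S))).card ≤ s + t := by
  have h1 := sw_card_eq h hP hQ hm hmQ hc hcQ hS
  have hVsub : VS (P.filter (fun e => e ⊆ S)) ⊆ S := by
    intro v hv
    obtain ⟨e, he, hve⟩ := mem_VS.1 hv
    exact (mem_filter.1 he).2 hve
  have hcV : (VS (P.filter (fun e => e ⊆ S))).card = 3 * (P.filter (fun e => e ⊆ S)).card :=
    card_VS (hm.mono (filter_subset _ _)) (fun e he => h.three e (hP (mem_filter.1 he).1))
  have hunion : ((P ∪ Q).filter (fun e => e ⊆ S)).card ≤
      (P.filter (fun e => e ⊆ S)).card + (Q.filter (fun e => e ⊆ S)).card := by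
    rw [filter_union]
    exact card_union_le _ _
  have h2 : (P.filter (fun e => e ⊆ S)).card ≤ s := by
    rw [← hc]
    exact card_le_card (filter_subset _ _)
  rw [card_sdiff_of_subset hVsub, hcV]
  omega

/-- an edge through a pair missed by a maximum matching has its third point covered -/
theorem third_mem (h : Hyp F s) {P : Finset (Finset V)} (hP : P ⊆ F) (hm : IsMatching P)
    (hc : P.card = s) {a b c : V} (ha : a ∉ VS P) (hb : b ∉ VS P) (hcN : c ∈ N F a b) :
    c ∈ VS P := by
  apply h.N_subset hP hm hc _ hcN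
  intro e he
  exact ⟨fun hae => ha (mem_VS.2 ⟨e, he, hae⟩), fun hbe => hb (mem_VS.2 ⟨e, he, hbe⟩)⟩

theorem N_comm (F : Finset (Finset V)) (a b : V) : N F a b = N F b a := by
  ext c
  rw [mem_N, mem_N]
  have h1 : ({a, b, c} : Finset V) = {b, a, c} := by
    ext v
    simp only [mem_insert, mem_singleton]
    tauto
  rw [h1]

theorem N_rot {F : Finset (Finset V)} {a b c : V} (hcN : c ∈ N F a b) : b ∈ N F a c := by
  rw [mem_N] at hcN ⊢
  have h1 : ({a, b, c} : Finset V) = {a, c, b} := by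
    ext v
    simp only [mem_insert, mem_singleton]
    tauto
  rwa [← h1]

/-- two components are equal or disjoint -/
theorem comp_disj {E : Finset (Finset V)} {C D : Finset V} {q : V} (hC : Closed E C)
    (hD : Closed E D) (hq : q ∈ D) (hqC : q ∉ C)
    (hmin : ∀ S : Finset V, q ∈ S → Closed E S → D ⊆ S) : Disjoint C D := by
  have h1 := hmin (D \ C) (mem_sdiff.2 ⟨hq, hqC⟩) (hD.sdiff hC)
  rw [Finset.disjoint_left]
  intro v hvC hvD
  exact (mem_sdiff.1 (h1 hvD)).2 hvC

theorem card_filter_union {E : Finset (Finset V)} (h3 : ∀ e ∈ E, e.card = 3) {C D : Finset V}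
    (hCD : Disjoint C D) :
    (E.filter (fun e => e ⊆ C)).card + (E.filter (fun e => e ⊆ D)).card ≤
      (E.filter (fun e => e ⊆ C ∪ D)).card := by
  rw [← card_union_of_disjoint]
  · apply card_le_card
    intro e he
    rw [mem_union, mem_filter, mem_filter] at he
    rw [mem_filter]
    rcases he with he | he
    · exact ⟨he.1, he.2.trans subset_union_left⟩
    · exact ⟨he.1, he.2.trans subset_union_right⟩
  · rw [Finset.disjoint_left]
    intro e he he'
    rw [mem_filter] at he he'
    have hne : e.Nonempty := by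
      rw [← card_pos, h3 e he.1]
      norm_num
    obtain ⟨v, hv⟩ := hne
    exact Finset.disjoint_left.1 hCD (he.2 hv) (he'.2 hv)

/-- the structure behind all caps: `a` and `b` are freed by switching inside `C` (the component of
`a`) and `D` (the component of `b`) -/
theorem struct (h : Hyp F s) {P : Finset (Finset V)} (hP : P ⊆ F) (hm : IsMatching P)
    (hc : P.card = s) (a b : V) :
    ∃ Q : Finset (Finset V), ∃ C D : Finset V, Q ⊆ F ∧ IsMatching Q ∧ Q.card = s ∧ a ∉ VS Q ∧
      b ∉ VS Q ∧ a ∈ C ∧ b ∈ D ∧ Closed (P ∪ Q) C ∧ Closed (P ∪ Q) D ∧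
      (C \ VS (P.filter (fun e => e ⊆ C))).card ≤ s + 1 ∧
      (D \ VS (P.filter (fun e => e ⊆ D))).card ≤ s + 1 ∧
      ((C ∪ D) \ VS (P.filter (fun e => e ⊆ C ∪ D))).card ≤ s + 2 ∧
      ((C = D) ∨ Disjoint C D) ∧
      (∀ S : Finset V, a ∈ S → Closed (P ∪ Q) S → C ⊆ S) ∧
      (∀ S : Finset V, b ∈ S → Closed (P ∪ Q) S → D ⊆ S) := by
  classical
  obtain ⟨Q, hQ, hmQ, hcQ, hav⟩ := h.avoid a b
  have haQ : a ∉ VS Q := by
    intro h1
    obtain ⟨e, he, hae⟩ := mem_VS.1 h1
    exact (hav e he).1 hae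
  have hbQ : b ∉ VS Q := by
    intro h1
    obtain ⟨e, he, hbe⟩ := mem_VS.1 h1
    exact (hav e he).2 hbe
  have h3 : ∀ e ∈ P ∪ Q, e.card = 3 := by
    intro e he
    rw [mem_union] at he
    rcases he with he | he
    · exact h.three e (hP he)
    · exact h.three e (hQ he)
  obtain ⟨C, haC, hC, hcC, hminC⟩ := exists_comp (P ∪ Q) h3 a
  obtain ⟨D, hbD, hD, hcD, hminD⟩ := exists_comp (P ∪ Q) h3 b
  have hCs := new_card h hP hQ hm hmQ hc hcQ hC hcC
  have hDs := new_card h hP hQ hm hmQ hc hcQ hD hcD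
  by_cases hbC : b ∈ C
  · -- one component
    have h1 : D ⊆ C := hminD C hbC hC
    have h2 : C ⊆ D := by
      by_cases haD : a ∈ D
      · exact hminC D haD hD
      · have h5 := hminC (C \ D) (mem_sdiff.2 ⟨haC, haD⟩) (hC.sdiff hD)
        exact absurd hbD (mem_sdiff.1 (h5 hbC)).2
    have h3' : C = D := Subset.antisymm h2 h1
    refine ⟨Q, C, D, hQ, hmQ, hcQ, haQ, hbQ, haC, hbD, hC, hD, hCs, hDs, ?_, Or.inl h3', hminC,
      hminD⟩
    rw [← h3', union_self]
    omega
  · have hdis : Disjoint C D := comp_disj hC hD hbD hbC hminD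
    refine ⟨Q, C, D, hQ, hmQ, hcQ, haQ, hbQ, haC, hbD, hC, hD, hCs, hDs, ?_, Or.inr hdis, hminC,
      hminD⟩
    apply new_card h hP hQ hm hmQ hc hcQ (hC.union hD)
    have h4 := card_filter_union h3 hdis
    rw [card_union_of_disjoint hdis]
    omega

/-- new neighbours lie in the union of the two components -/
theorem label_subset (h : Hyp F s) {P Q : Finset (Finset V)} (hP : P ⊆ F) (hQ : Q ⊆ F)
    (hm : IsMatching P) (hmQ : IsMatching Q) (hc : P.card = s) (hcQ : Q.card = s) {a b : V}
    {S : Finset V} (hS : Closed (P ∪ Q) S) (ha : a ∈ S ∨ a ∉ VS P) (hb : b ∈ S ∨ b ∉ VS P)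
    (haQ : a ∉ VS Q) (hbQ : b ∉ VS Q) :
    N F a b \ VS P ⊆ S \ VS (P.filter (fun e => e ⊆ S)) := by
  intro c hcc
  rw [mem_sdiff] at hcc
  apply sw_new (Q := Q) _ hcc.2
  exact third_mem h (sw_subset hP hQ)
    (sw_matching hS subset_union_left subset_union_right hm hmQ)
    (sw_card h hP hQ hm hmQ hc hcQ hS) (sw_avoid hS ha haQ) (sw_avoid hS hb hbQ) hcc.1

/-- **own pairs**: if `a`, `b` lie in the same edge of `P`, the label is at most `s + 1` -/
theorem own_label_le (h : Hyp F s) {P : Finset (Finset V)} (hP : P ⊆ F) (hm : IsMatching P)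
    (hc : P.card = s) {e : Finset V} (he : e ∈ P) {a b : V} (ha : a ∈ e) (hb : b ∈ e) :
    (N F a b \ VS P).card ≤ s + 1 := by
  obtain ⟨Q, C, D, hQ, hmQ, hcQ, haQ, hbQ, haC, hbD, hC, hD, hCs, hDs, -, -, -, -⟩ :=
    struct h hP hm hc a b
  have hbC : b ∈ C := by
    rcases hC e (mem_union_left _ he) with h1 | h1
    · exact h1 hb
    · exact absurd haC (Finset.disjoint_left.1 h1 ha)
  exact (card_le_card (label_subset h hP hQ hm hmQ hc hcQ hC (Or.inl haC) (Or.inl hbC) haQ
    hbQ)).trans hCs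

/-- a pair with one point outside `VS P` has at most `s + 1` third points outside `VS P` -/
theorem out_label_le (h : Hyp F s) {P : Finset (Finset V)} (hP : P ⊆ F) (hm : IsMatching P)
    (hc : P.card = s) {x p : V} (hx : x ∉ VS P) : (N F x p \ VS P).card ≤ s + 1 := by
  obtain ⟨Q, C, D, hQ, hmQ, hcQ, haQ, hbQ, haC, hbD, hC, hD, hCs, hDs, -, -, -, -⟩ :=
    struct h hP hm hc x p
  exact (card_le_card (label_subset h hP hQ hm hmQ hc hcQ hD (Or.inr hx) (Or.inl hbD) haQ
    hbQ)).trans hDs

/-- K2 for a closed set: a switched matching which misses a point of `N F x y` uses `x` or `y` -/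
theorem sw_uses (h : Hyp F s) {P Q : Finset (Finset V)} (hP : P ⊆ F) (hQ : Q ⊆ F)
    (hm : IsMatching P) (hmQ : IsMatching Q) (hc : P.card = s) (hcQ : Q.card = s) {x y p : V}
    (hx : x ∉ VS P) (hy : y ∉ VS P) (hp : p ∈ N F x y)
    {S : Finset V} (hS : Closed (P ∪ Q) S) (hpS : p ∈ S) (hpQ : p ∉ VS Q) :
    x ∈ S \ VS (P.filter (fun e => e ⊆ S)) ∨ y ∈ S \ VS (P.filter (fun e => e ⊆ S)) := by
  by_contra hcon
  push Not at hcon
  have h1 : x ∉ VS (sw P Q S) := fun hx' => hcon.1 (sw_new hx' hx)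
  have h2 : y ∉ VS (sw P Q S) := fun hy' => hcon.2 (sw_new hy' hy)
  exact sw_avoid hS (Or.inl hpS) hpQ (third_mem h (sw_subset hP hQ)
    (sw_matching hS subset_union_left subset_union_right hm hmQ)
    (sw_card h hP hQ hm hmQ hc hcQ hS) h1 h2 hp)

theorem card_sdiff_pair_le {A : Finset V} {x y z : V} {t : ℕ} (hA : A.card ≤ t + 1)
    (hz : z ∈ A) (hzxy : z = x ∨ z = y) : (A \ {x, y}).card ≤ t := by
  have h1 : A \ {x, y} ⊆ A.erase z := by
    intro v hv
    rw [mem_sdiff] at hv
    rw [mem_erase]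
    refine ⟨?_, hv.1⟩
    rintro rfl
    apply hv.2
    rcases hzxy with rfl | rfl <;> simp
  have h2 := card_le_card h1
  rw [card_erase_of_mem hz] at h2
  omega

/-- **(b)** if `p` lies in `E = N F x y` then at most `s + 1` third points of `p q` lie outside
`VS P ∪ {x, y}` -/
theorem label_E_le (h : Hyp F s) {P : Finset (Finset V)} (hP : P ⊆ F) (hm : IsMatching P)
    (hc : P.card = s) {x y p q : V} (hx : x ∉ VS P) (hy : y ∉ VS P) (hp : p ∈ N F x y) :
    ((N F p q \ VS P) \ {x, y}).card ≤ s + 1 := by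
  obtain ⟨Q, C, D, hQ, hmQ, hcQ, haQ, hbQ, haC, hbD, hC, hD, -, -, hCD, -, -, -⟩ :=
    struct h hP hm hc p q
  have hu := sw_uses h hP hQ hm hmQ hc hcQ hx hy hp (hC.union hD) (mem_union_left _ haC) haQ
  have hsub := label_subset h hP hQ hm hmQ hc hcQ (hC.union hD)
    (Or.inl (mem_union_left _ haC)) (Or.inl (mem_union_right _ hbD)) haQ hbQ
  have h2 : (((C ∪ D) \ VS (P.filter (fun e => e ⊆ C ∪ D))) \ {x, y}).card ≤ s + 1 := by
    rcases hu with hu | hu
    · exact card_sdiff_pair_le hCD hu (Or.inl rfl)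
    · exact card_sdiff_pair_le hCD hu (Or.inr rfl)
  exact (card_le_card (sdiff_subset_sdiff hsub (Subset.refl _))).trans h2

/-- **(b')** if `p`, `q` both lie in `E = N F x y` then at most `s` third points of `p q` lie
outside `VS P ∪ {x, y}` -/
theorem label_EE_le (h : Hyp F s) {P : Finset (Finset V)} (hP : P ⊆ F) (hm : IsMatching P)
    (hc : P.card = s) {x y p q : V} (hxy : x ≠ y) (hx : x ∉ VS P) (hy : y ∉ VS P)
    (hp : p ∈ N F x y) (hq : q ∈ N F x y) :
    ((N F p q \ VS P) \ {x, y}).card ≤ s := by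
  obtain ⟨Q, C, D, hQ, hmQ, hcQ, haQ, hbQ, haC, hbD, hC, hD, hCs, hDs, hCD, hor, -, -⟩ :=
    struct h hP hm hc p q
  have huC := sw_uses h hP hQ hm hmQ hc hcQ hx hy hp hC haC haQ
  have huD := sw_uses h hP hQ hm hmQ hc hcQ hx hy hq hD hbD hbQ
  rcases hor with hor | hor
  · -- one component
    have hbC : q ∈ C := by rw [hor]; exact hbD
    have hsub := label_subset h hP hQ hm hmQ hc hcQ hC (Or.inl haC) (Or.inl hbC) haQ hbQ
    have h2 : ((C \ VS (P.filter (fun e => e ⊆ C))) \ {x, y}).card ≤ s := by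
      rcases huC with hu | hu
      · exact card_sdiff_pair_le hCs hu (Or.inl rfl)
      · exact card_sdiff_pair_le hCs hu (Or.inr rfl)
    exact (card_le_card (sdiff_subset_sdiff hsub (Subset.refl _))).trans h2
  · -- two components: each of them contains `x` or `y`
    have hsub := label_subset h hP hQ hm hmQ hc hcQ (hC.union hD)
      (Or.inl (mem_union_left _ haC)) (Or.inl (mem_union_right _ hbD)) haQ hbQ
    have hx1 : x ∈ C ∪ D := by
      rcases huC with hu | hu
      · exact mem_union_left _ (mem_sdiff.1 hu).1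
      · rcases huD with hv | hv
        · exact mem_union_right _ (mem_sdiff.1 hv).1
        · exact absurd (mem_sdiff.1 hv).1 (Finset.disjoint_left.1 hor (mem_sdiff.1 hu).1)
    have hy1 : y ∈ C ∪ D := by
      rcases huC with hu | hu
      · rcases huD with hv | hv
        · exact absurd (mem_sdiff.1 hv).1 (Finset.disjoint_left.1 hor (mem_sdiff.1 hu).1)
        · exact mem_union_right _ (mem_sdiff.1 hv).1
      · exact mem_union_left _ (mem_sdiff.1 hu).1
    have hnot : ∀ z, z ∉ VS P → z ∉ VS (P.filter (fun e => e ⊆ C ∪ D)) := by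
      intro z hz hz'
      obtain ⟨e, he, hze⟩ := mem_VS.1 hz'
      exact hz (mem_VS.2 ⟨e, (mem_filter.1 he).1, hze⟩)
    have hpair : ({x, y} : Finset V) ⊆ (C ∪ D) \ VS (P.filter (fun e => e ⊆ C ∪ D)) := by
      intro z hz
      rw [mem_insert, mem_singleton] at hz
      rcases hz with rfl | rfl
      · exact mem_sdiff.2 ⟨hx1, hnot _ hx⟩
      · exact mem_sdiff.2 ⟨hy1, hnot _ hy⟩
    have h2 := card_le_card (sdiff_subset_sdiff hsub (Subset.refl ({x, y} : Finset V)))
    rw [card_sdiff_of_subset hpair, card_pair hxy] at h2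
    omega

/-- own pair with a point in `E`: at most `s` -/
theorem own_label_E_le (h : Hyp F s) {P : Finset (Finset V)} (hP : P ⊆ F) (hm : IsMatching P)
    (hc : P.card = s) {e : Finset V} (he : e ∈ P) {x y p q : V} (hx : x ∉ VS P) (hy : y ∉ VS P)
    (hpe : p ∈ e) (hqe : q ∈ e) (hp : p ∈ N F x y) :
    ((N F p q \ VS P) \ {x, y}).card ≤ s := by
  obtain ⟨Q, C, D, hQ, hmQ, hcQ, haQ, hbQ, haC, hbD, hC, hD, hCs, hDs, -, -, -, -⟩ :=
    struct h hP hm hc p q
  have hbC : q ∈ C := by
    rcases hC e (mem_union_left _ he) with h1 | h1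
    · exact h1 hqe
    · exact absurd haC (Finset.disjoint_left.1 h1 hpe)
  have huC := sw_uses h hP hQ hm hmQ hc hcQ hx hy hp hC haC haQ
  have hsub := label_subset h hP hQ hm hmQ hc hcQ hC (Or.inl haC) (Or.inl hbC) haQ hbQ
  have h2 : ((C \ VS (P.filter (fun e => e ⊆ C))) \ {x, y}).card ≤ s := by
    rcases huC with hu | hu
    · exact card_sdiff_pair_le hCs hu (Or.inl rfl)
    · exact card_sdiff_pair_le hCs hu (Or.inr rfl)
  exact (card_le_card (sdiff_subset_sdiff hsub (Subset.refl _))).trans h2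

/-- **`N'_x(p)`**: for `p ∈ E = N F x y` at most `s` third points of `x p` lie outside
`VS P ∪ {x, y}` -/
theorem out_label_E_le (h : Hyp F s) {P : Finset (Finset V)} (hP : P ⊆ F) (hm : IsMatching P)
    (hc : P.card = s) {x y p : V} (hx : x ∉ VS P) (hy : y ∉ VS P) (hp : p ∈ N F x y) :
    ((N F x p \ VS P) \ {x, y}).card ≤ s := by
  obtain ⟨Q, C, D, hQ, hmQ, hcQ, haQ, hbQ, haC, hbD, hC, hD, hCs, hDs, -, -, -, -⟩ :=
    struct h hP hm hc x p
  have huD := sw_uses h hP hQ hm hmQ hc hcQ hx hy hp hD hbD hbQ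
  have hsub := label_subset h hP hQ hm hmQ hc hcQ hD (Or.inr hx) (Or.inl hbD) haQ hbQ
  have h2 : ((D \ VS (P.filter (fun e => e ⊆ D))) \ {x, y}).card ≤ s := by
    rcases huD with hu | hu
    · exact card_sdiff_pair_le hDs hu (Or.inl rfl)
    · exact card_sdiff_pair_le hDs hu (Or.inr rfl)
  exact (card_le_card (sdiff_subset_sdiff hsub (Subset.refl _))).trans h2

end

end Helper13.Res
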